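import Pool.Agent.H27.ZF.TA

/-!
# ESL: elementary symmetric sums of nonnegative numbers from below
-/

set_option autoImplicit false

namespace Pool.Agent.H62.ZF

open Finset

/-- double counting of the pairs of a set and one of its elements -/
theorem esymm_succ {R : Type} [CommRing R] (ι : Type) [Fintype ι] [DecidableEq ι] (x : ι → R)
    (j : ℕ) :
    ((j : R) + 1) * ∑ S ∈ powersetCard (j + 1) (univ : Finset ι), ∏ i ∈ S, x i =
      ∑ T ∈ powersetCard j (univ : Finset ι), (∏ i ∈ T, x i) * ∑ i ∈ Tᶜ, x i := by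
  have h1 : ((j : R) + 1) * ∑ S ∈ powersetCard (j + 1) (univ : Finset ι), ∏ i ∈ S, x i =
      ∑ S ∈ powersetCard (j + 1) (univ : Finset ι), ∑ _i ∈ S, ∏ i ∈ S, x i := by
    rw [Finset.mul_sum]
    refine Finset.sum_congr rfl fun S hS => ?_
    rw [Finset.sum_const, (mem_powersetCard.1 hS).2, nsmul_eq_mul]
    push_cast
    ring
  have h2 : ∑ T ∈ powersetCard j (univ : Finset ι), (∏ i ∈ T, x i) * ∑ i ∈ Tᶜ, x i =
      ∑ T ∈ powersetCard j (univ : Finset ι), ∑ i ∈ Tᶜ, (∏ i ∈ T, x i) * x i :=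
    Finset.sum_congr rfl fun T _ => Finset.mul_sum _ _ _
  rw [h1, h2, Finset.sum_sigma', Finset.sum_sigma']
  refine Finset.sum_bij' (fun p _ => ⟨p.1.erase p.2, p.2⟩) (fun p _ => ⟨insert p.2 p.1, p.2⟩)
    ?_ ?_ ?_ ?_ ?_
  · rintro ⟨S, i⟩ h
    rw [mem_sigma, mem_powersetCard] at h ⊢
    refine ⟨⟨subset_univ _, ?_⟩, ?_⟩
    · show (S.erase i).card = j
      rw [card_erase_of_mem h.2, h.1.2]
      rfl
    · show i ∈ (S.erase i)ᶜ
      simp
  · rintro ⟨T, i⟩ h
    rw [mem_sigma, mem_powersetCard] at h ⊢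
    have hi : i ∉ T := mem_compl.1 h.2
    refine ⟨⟨subset_univ _, ?_⟩, ?_⟩
    · show (insert i T).card = j + 1
      rw [card_insert_of_notMem hi, h.1.2]
    · exact mem_insert_self _ _
  · rintro ⟨S, i⟩ h
    rw [mem_sigma] at h
    show (⟨insert i (S.erase i), i⟩ : (_ : Finset ι) × ι) = ⟨S, i⟩
    rw [insert_erase h.2]
  · rintro ⟨T, i⟩ h
    rw [mem_sigma] at h
    have hi : i ∉ T := mem_compl.1 h.2
    show (⟨(insert i T).erase i, i⟩ : (_ : Finset ι) × ι) = ⟨T, i⟩
    rw [erase_insert hi]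
  · rintro ⟨S, i⟩ h
    rw [mem_sigma] at h
    show ∏ i ∈ S, x i = (∏ k ∈ S.erase i, x k) * x i
    rw [mul_comm, mul_prod_erase S x h.2]

theorem pf_ESL : Pool.Agent.H27.ZF.T_ESL := by
  intro ι _ _ x a l hx hV
  set V : ℝ := ∑ i, x i with hVdef
  have hV0 : 0 ≤ V := Finset.sum_nonneg fun i _ => (hx i).1
  have hE0 : ∀ j, 0 ≤ ∑ S ∈ powersetCard j (univ : Finset ι), ∏ i ∈ S, x i := fun j =>
    Finset.sum_nonneg fun S _ => Finset.prod_nonneg fun i _ => (hx i).1
  have hstep : ∀ j, j ≤ l → V / 2 ≤ V - j * a := by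
    intro j hj
    rcases le_or_gt 0 a with ha | ha
    · have h1 : (j : ℝ) * a ≤ l * a := mul_le_mul_of_nonneg_right (by exact_mod_cast hj) ha
      linarith
    · have h1 : (j : ℝ) * a ≤ 0 := mul_nonpos_of_nonneg_of_nonpos (Nat.cast_nonneg _) ha.le
      linarith
  have key : ∀ j, j ≤ l → (V / 2) ^ j / (Nat.factorial j : ℝ) ≤
      ∑ S ∈ powersetCard j (univ : Finset ι), ∏ i ∈ S, x i := by
    intro j
    induction j with
    | zero =>
      intro _
      simp
    | succ j ih =>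
      intro hj
      have ih' := ih (by omega)
      have h1 := esymm_succ ι x j
      have h2 : (∑ T ∈ powersetCard j (univ : Finset ι), ∏ i ∈ T, x i) * (V / 2) ≤
          ∑ T ∈ powersetCard j (univ : Finset ι), (∏ i ∈ T, x i) * ∑ i ∈ Tᶜ, x i := by
        rw [Finset.sum_mul]
        refine Finset.sum_le_sum fun T hT => ?_
        refine mul_le_mul_of_nonneg_left ?_ (Finset.prod_nonneg fun i _ => (hx i).1)
        have h3 : ∑ i ∈ T, x i + ∑ i ∈ Tᶜ, x i = V := Finset.sum_add_sum_compl T x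
        have h4 : ∑ i ∈ T, x i ≤ j * a := by
          have h5 := Finset.sum_le_card_nsmul T x a fun i _ => (hx i).2
          rw [(mem_powersetCard.1 hT).2, nsmul_eq_mul] at h5
          exact h5
        have h6 := hstep j (by omega)
        linarith
      have h3 : (0 : ℝ) < (j : ℝ) + 1 := by positivity
      have h4 : (0 : ℝ) < (Nat.factorial j : ℝ) := by exact_mod_cast Nat.factorial_pos j
      rw [← h1] at h2
      have h5 : (V / 2) ^ j / (Nat.factorial j : ℝ) * (V / 2) ≤
          (∑ T ∈ powersetCard j (univ : Finset ι), ∏ i ∈ T, x i) * (V / 2) :=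
        mul_le_mul_of_nonneg_right ih' (by linarith)
      have h6 : (V / 2) ^ (j + 1) / (Nat.factorial (j + 1) : ℝ) =
          (V / 2) ^ j / (Nat.factorial j : ℝ) * (V / 2) / ((j : ℝ) + 1) := by
        rw [Nat.factorial_succ]
        push_cast
        field_simp
        try ring
      rw [h6, div_le_iff₀ h3]
      linarith
  exact key l le_rfl

end Pool.Agent.H62.ZF
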