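import Pool.Agent.H27.ZF.TA

/-!
# NZR: no zeros
-/

set_option autoImplicit false

namespace Pool.Agent.H62.ZF

open Finset Pool.Agent.H27.ZF

/-- monotonicity of the bounds for the sums of squares -/
theorem sq_mono {lam : ℕ → ℂ} {Q A A' : ℝ} (h : A ≤ A') (hS : Sq lam Q A) : Sq lam Q A' := by
  intro r hr
  exact (hS r hr).trans (mul_le_mul_of_nonneg_right h (by positivity))

/-- monotonicity of the bounds for the Dirichlet polynomials -/
theorem dp_mono {m : ℕ} {lam : ℕ → ℂ} {Q z0 z A A' : ℝ} {s : ℂ} (h : A ≤ A')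
    (hS : Dp m lam Q z0 z A s) : Dp m lam Q z0 z A' s := by
  intro j k r h1 h2 h3 h4 h5
  exact (hS j k r h1 h2 h3 h4 h5).trans (mul_le_mul_of_nonneg_right h (by positivity))

/-- the finite product is entire -/
theorem diff_prod (m : ℕ) (q : ℕ → ℕ → ℂ) (S : Finset ℕ) (hS : ∀ p ∈ S, p.Prime) :
    Differentiable ℂ fun s : ℂ => ∏ p ∈ S, qv m (q p) ((p : ℂ) ^ (-s)) := by
  refine Differentiable.fun_finset_prod fun p hp => ?_
  unfold qv
  refine Differentiable.fun_sum fun j _ => ?_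
  have hp0 : (p : ℂ) ≠ 0 := by exact_mod_cast (hS p hp).ne_zero
  have h1 : Differentiable ℂ fun s : ℂ => (p : ℂ) ^ (-s) := by
    intro s
    exact (differentiableAt_id.neg).const_cpow (Or.inl hp0)
  exact (h1.pow j).const_mul _

/-- absolute convergence -/
theorem summ_lam (m : ℕ) (C0 : ℝ) (lam : ℕ → ℂ)
    (hl : ∀ n : ℕ, 1 ≤ n → ‖lam n‖ ≤ C0 * (n : ℝ) ^ m) (x : ℝ) (hx : (m : ℝ) + 4 ≤ x) :
    Summable (fun n : ℕ => if 1 ≤ n then ‖lam n‖ * (n : ℝ) ^ (-x) else 0) := by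
  have h1 : Summable fun n : ℕ => C0 * ((n : ℝ) ^ (-(2 : ℝ))) :=
    (Real.summable_nat_rpow.2 (by norm_num)).mul_left C0
  refine Summable.of_nonneg_of_le (fun n => ?_) (fun n => ?_) h1
  · split_ifs
    · positivity
    · exact le_rfl
  · have hC : 0 ≤ C0 := by
      have := hl 1 le_rfl
      simp only [Nat.cast_one, one_pow, mul_one] at this
      exact (norm_nonneg _).trans this
    split_ifs with hn
    · have hn0 : (0 : ℝ) < n := by exact_mod_cast hn
      have hn1 : (1 : ℝ) ≤ n := by exact_mod_cast hn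
      calc ‖lam n‖ * (n : ℝ) ^ (-x) ≤ C0 * (n : ℝ) ^ m * (n : ℝ) ^ (-x) :=
            mul_le_mul_of_nonneg_right (hl n hn) (by positivity)
        _ = C0 * (n : ℝ) ^ ((m : ℝ) - x) := by
            rw [mul_assoc, ← Real.rpow_natCast, ← Real.rpow_add hn0]
            rfl
        _ ≤ C0 * (n : ℝ) ^ (-(2 : ℝ)) := by
            refine mul_le_mul_of_nonneg_left ?_ hC
            exact Real.rpow_le_rpow_of_exponent_le hn1 (by linarith)
    · positivity

theorem pf_NZR (hPRD : T_PRD) (hHTC : T_HTC) (hEPR : T_EPR) (hTAI : T_TAI) : T_NZR := by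
  intro m d C0 hm hd hd2 hC0
  have hmR : (1 : ℝ) ≤ m := by exact_mod_cast hm
  obtain ⟨w, hw0, hw1, hHT⟩ := hHTC 1 ((m : ℝ) + 6 - 1 / 2 - d) ((m : ℝ) + 6 - 1 / 2 - d / 2)
    one_pos (by linarith) (by linarith)
  obtain ⟨c1, hc1, hP⟩ := hPRD m (d / 2) C0 hm (by linarith) (by linarith) hC0
  obtain ⟨C1, hC1, hT⟩ := hTAI m C0 hC0
  set η : ℝ := w / (16 * m) with hη
  have hη0 : 0 < η := by positivity
  obtain ⟨k0, Q1, hk0, hQ1, hP'⟩ := hP η hη0
  set c : ℝ := min c1 η with hc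
  have hc0 : 0 < c := lt_min hc1 hη0
  have hcc1 : c ≤ c1 := min_le_left _ _
  have hcη : c ≤ η := min_le_right _ _
  set K : ℝ := (2 * C1) ^ w * 2 ^ (1 - w) with hK
  have hK0 : 0 < K := by positivity
  -- large `Q`
  set Q2 : ℝ := (K + 1) ^ (8 * m / w) + (2 * C1 + 1) ^ (4 * (m : ℝ)) + 1 with hQ2
  refine ⟨c, k0, 2 * (m + 6), Q1 + Q2, hc0, hk0, by linarith, by
    have : 0 ≤ Q2 := by positivity
    linarith, ?_⟩
  intro lam q L Q t hQ hE hl hL hLs hSq hbox s hs hst hzero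
  have hQ2p : 0 < (K + 1) ^ (8 * (m : ℝ) / w) := by positivity
  have hQ3p : 0 < (2 * C1 + 1) ^ (4 * (m : ℝ)) := by positivity
  have hQQ1 : Q1 ≤ Q := by
    have : 0 ≤ Q2 := by positivity
    linarith
  have hQ1' : 1 ≤ Q := by linarith
  have hQ0 : 0 < Q := by linarith
  set z : ℝ := Q ^ (1 / (4 * (m : ℝ))) with hz
  have hz1 : 1 ≤ z := Real.one_le_rpow hQ1' (by positivity)
  have hzlt : 2 * C1 < z := by
    have h1 : (2 * C1 + 1) ^ (4 * (m : ℝ)) ≤ Q := by linarith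
    have h2 : ((2 * C1 + 1) ^ (4 * (m : ℝ))) ^ (1 / (4 * (m : ℝ))) ≤ z :=
      Real.rpow_le_rpow hQ3p.le h1 (by positivity)
    rw [← Real.rpow_mul (by linarith), mul_one_div_cancel (by positivity), Real.rpow_one] at h2
    linarith
  have hzQ : z ^ (4 * m) ≤ Q := by
    rw [hz, ← Real.rpow_natCast, ← Real.rpow_mul hQ0.le]
    have : (1 : ℝ) / (4 * m) * ((4 * m : ℕ) : ℝ) = 1 := by
      push_cast
      field_simp
    rw [this, Real.rpow_one]
  set S : Finset ℕ := (Finset.range (⌊z⌋₊ + 1)).filter Nat.Prime with hS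
  have hSp : ∀ p ∈ S, p.Prime := fun p hp => (mem_filter.1 hp).2
  have hfl : 1 ≤ ⌊z⌋₊ := Nat.le_floor (by exact_mod_cast hz1)
  have hfl2 : z / 2 ≤ ⌊z⌋₊ := by
    have h1 := Nat.lt_floor_add_one z
    have h2 : (1 : ℝ) ≤ ⌊z⌋₊ := by exact_mod_cast hfl
    linarith
  -- the function
  set M : ℂ → ℂ := fun s => ∏ p ∈ S, qv m (q p) ((p : ℂ) ^ (-s)) with hM
  set D : ℂ → ℂ := fun s => M s * L s - 1 with hD
  have hDd : Differentiable ℂ D := ((diff_prod m q S hSp).mul hL).sub_const 1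
  -- far to the right
  have hfar : ∀ u : ℂ, (m : ℝ) + 4 ≤ u.re → ‖D u‖ ≤ 2 * C1 / z := by
    intro u hu
    have h1 := hEPR m lam q u S hE hSp (summ_lam m C0 lam hl u.re hu)
    have h2 := (hLs u (by linarith)).tsum_eq
    rw [h2] at h1
    have h3 := hT lam hE.one hl ⌊z⌋₊ hfl u hu
    rw [← h1] at h3
    refine h3.trans ?_
    rw [div_le_div_iff₀ (by linarith) (by linarith)]
    nlinarith
  -- in the box
  have hQc : Q ^ c * Q ^ η + 1 ≤ 2 * Q ^ (2 * η) := by
    have h1 : Q ^ c ≤ Q ^ η := Real.rpow_le_rpow_of_exponent_le hQ1' hcη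
    have h2 : Q ^ c * Q ^ η ≤ Q ^ (2 * η) := by
      rw [two_mul, Real.rpow_add hQ0]
      exact mul_le_mul_of_nonneg_right h1 (by positivity)
    have h3 : 1 ≤ Q ^ (2 * η) := Real.one_le_rpow hQ1' (by positivity)
    linarith
  have hbx : ∀ u : ℂ, 1 / 2 + d / 2 ≤ u.re → u.re ≤ 2 * ((m : ℝ) + 6) →
      |u.im - t| ≤ 2 * ((m : ℝ) + 6) → ‖D u‖ ≤ 2 * Q ^ (2 * η) := by
    intro u h1 h2 h3
    obtain ⟨h4, h5⟩ := hbox u h1 h2 h3
    have h6 := hP' lam q Q hQQ1 hE hl
      (sq_mono (Real.rpow_le_rpow_of_exponent_le hQ1' (by linarith)) hSq) z hzQ u (by linarith)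
      (dp_mono (Real.rpow_le_rpow_of_exponent_le hQ1' hcc1) h5)
    have h7 : ‖D u‖ ≤ ‖M u‖ * ‖L u‖ + 1 := by
      refine (norm_sub_le _ _).trans ?_
      rw [norm_mul, norm_one]
    have h8 : ‖M u‖ * ‖L u‖ ≤ Q ^ η * Q ^ c :=
      mul_le_mul h6 h4 (norm_nonneg _) (by positivity)
    linarith
  have hDs : ‖D s‖ = 1 := by
    show ‖M s * L s - 1‖ = 1
    rw [hzero, mul_zero, zero_sub, norm_neg, norm_one]
  have hlt : 2 * C1 / z < 1 := by
    rw [div_lt_one (by linarith)]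
    exact hzlt
  rcases le_or_gt ((m : ℝ) + 4) s.re with hre | hre
  · have := hfar s hre
    linarith
  · -- three circles
    set cc : ℂ := ((m : ℝ) + 6 : ℝ) + t * Complex.I with hcc
    have hccre : cc.re = (m : ℝ) + 6 := by simp [hcc]
    have hccim : cc.im = t := by simp [hcc]
    have hM1 : 0 < 2 * C1 / z := by positivity
    have hM3 : 2 * C1 / z ≤ 2 * Q ^ (2 * η) := by
      have : 1 ≤ Q ^ (2 * η) := Real.one_le_rpow hQ1' (by positivity)
      linarith
    have h1 := hHT D cc (2 * C1 / z) (2 * Q ^ (2 * η)) hDd hM1 hM3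
      (fun u hu => by
        have h2 := (Complex.abs_re_le_norm (u - cc)).trans hu
        rw [Complex.sub_re, hccre, abs_le] at h2
        exact hfar u (by linarith [h2.1]))
      (fun u hu => by
        have h2 := (Complex.abs_re_le_norm (u - cc)).trans hu
        have h3 := (Complex.abs_im_le_norm (u - cc)).trans hu
        rw [Complex.sub_re, hccre, abs_le] at h2
        rw [Complex.sub_im, hccim] at h3
        exact hbx u (by linarith [h2.1]) (by linarith [h2.2]) (by linarith))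
      s (by
        have e1 : s - cc = ((s.re - ((m : ℝ) + 6) : ℝ) : ℂ) := by
          apply Complex.ext
          · simp [hcc]
          · simp [hcc, hst]
        rw [e1, Complex.norm_real, Real.norm_eq_abs, abs_le]
        constructor <;> linarith)
    rw [hDs] at h1
    -- the numbers
    have h2 : (2 * C1 / z) ^ w * (2 * Q ^ (2 * η)) ^ (1 - w) ≤ K * Q ^ (-(w / (8 * m))) := by
      have f1 : (2 * C1 / z) ^ w = (2 * C1) ^ w * Q ^ (-(1 / (4 * (m : ℝ)) * w)) := by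
        rw [Real.div_rpow (by linarith) (by linarith), hz, ← Real.rpow_mul hQ0.le,
          Real.rpow_neg hQ0.le, div_eq_mul_inv]
      have f2 : (2 * Q ^ (2 * η)) ^ (1 - w) = 2 ^ (1 - w) * Q ^ (2 * η * (1 - w)) := by
        rw [Real.mul_rpow (by norm_num) (by positivity), ← Real.rpow_mul hQ0.le]
      rw [f1, f2, hK]
      have e1 : (2 * C1) ^ w * Q ^ (-(1 / (4 * (m : ℝ)) * w)) * (2 ^ (1 - w) *
          Q ^ (2 * η * (1 - w))) = (2 * C1) ^ w * 2 ^ (1 - w) *
          Q ^ (-(1 / (4 * (m : ℝ)) * w) + 2 * η * (1 - w)) := by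
        rw [Real.rpow_add hQ0]
        ring
      rw [e1]
      refine mul_le_mul_of_nonneg_left ?_ hK0.le
      refine Real.rpow_le_rpow_of_exponent_le hQ1' ?_
      have e2 : -(1 / (4 * (m : ℝ)) * w) + 2 * η = -(w / (8 * m)) := by
        rw [hη]
        field_simp
        ring
      have e3 : 2 * η * (1 - w) ≤ 2 * η := by nlinarith
      linarith
    have h3 : K + 1 ≤ Q ^ (w / (8 * (m : ℝ))) := by
      have h4 : (K + 1) ^ (8 * (m : ℝ) / w) ≤ Q := by linarith
      have h5 : ((K + 1) ^ (8 * (m : ℝ) / w)) ^ (w / (8 * (m : ℝ))) ≤ Q ^ (w / (8 * (m : ℝ))) :=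
        Real.rpow_le_rpow hQ2p.le h4 (by positivity)
      rw [← Real.rpow_mul (by linarith)] at h5
      have h6 : 8 * (m : ℝ) / w * (w / (8 * (m : ℝ))) = 1 := by field_simp
      rw [h6, Real.rpow_one] at h5
      exact h5
    have h4 : K * Q ^ (-(w / (8 * (m : ℝ)))) < 1 := by
      rw [Real.rpow_neg hQ0.le, ← div_eq_mul_inv, div_lt_one (by positivity)]
      linarith
    linarith

end Pool.Agent.H62.ZF
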